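import Pool.Agent.Helper84.SQ.GoalsB

/-!
# Project SQ, goal APR: the approximation algorithm
-/

namespace Pool.Agent.Helper13.SQ

open Pool.Agent.Helper84.SQ
open Pool.Agent.Helper81.CC Pool.Agent.Bin

private theorem zip_sum {A B : Type} (g : A → B → ℤ) (a : A) (b : B) :
    ∀ (d : ℕ) (G : List A) (x : List B), G.length = d → x.length = d →
      (List.zipWith g G x).sum = ∑ j : Fin d, g (G.getD j a) (x.getD j b) := by
  intro d
  induction d with
  | zero =>
    intro G x hG hx
    rw [List.length_eq_zero_iff] at hG hx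
    subst hG hx
    simp
  | succ d ih =>
    intro G x hG hx
    match G, x, hG, hx with
    | c :: G, y :: x, hG, hx =>
      rw [List.zipWith_cons_cons, List.sum_cons, Fin.sum_univ_succ,
        ih G x (by simpa using hG) (by simpa using hx)]
      simp

private theorem val_gv (d : ℕ) (G : List (Zn × Zn)) (x : List Zn) (hG : G.length = d)
    (hx : x.length = d) : (Zn.val (gv G x) : ℝ) = gq (kG d G) (_root_.Pool.Agent.Helper84.SQ.hG d G) (lz d x) := by
  have h1 : Zn.val (gv G x) =
      (List.zipWith (fun (c : Zn × Zn) (y : Zn) =>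
        Zn.val c.1 * (Zn.val y) ^ 2 + Zn.val c.2 * Zn.val y) G x).sum := by
    unfold gv
    rw [Zn.val_sum, List.map_zipWith]
    congr 2
    funext c y
    rw [Zn.val_add, Zn.val_mul, Zn.val_mul, Zn.val_mul]
    ring
  rw [h1, zip_sum _ (Zn.zero, Zn.zero) Zn.zero d G x hG hx]
  unfold gq kG _root_.Pool.Agent.Helper84.SQ.hG lz
  push_cast
  rfl

/-- A nonempty list has a best element. -/
private theorem exists_best (G : List (Zn × Zn)) (l : List (List Zn)) (hl : l ≠ []) :
    ∃ x ∈ l, ∀ y ∈ l, Zn.val (gv G x) ≤ Zn.val (gv G y) := by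
  classical
  have hne : (l.toFinset).Nonempty := by
    rw [List.toFinset_nonempty_iff]
    exact hl
  obtain ⟨x, hx, hmin⟩ := Finset.exists_min_image l.toFinset (fun x => Zn.val (gv G x)) hne
  refine ⟨x, List.mem_toFinset.mp hx, fun y hy => hmin y (List.mem_toFinset.mpr hy)⟩

theorem apr (h1 : LvsStmt) (h2 : SlvStmt) : AprStmt := by
  intro N d K p V R F G hok hV hVp hK hGl hcoef
  obtain ⟨hleaf, hest⟩ := h1 N d K p V R F hok hV hVp hK
  -- the list of the candidates is nonempty if there is a solution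
  have hcand : ∀ R' ∈ leaves N d K V R p, ∀ a' ∈ Sol d R', ∃ y,
      solve N d R' F = some y ∧
      y ∈ (leaves N d K V R p).filterMap (fun R' => solve N d R' F) := by
    intro R' hR' a' ha'
    cases hs : solve N d R' F with
    | none =>
      have := (h2 N d R' F (hleaf R' hR').1).1 hs
      rw [this] at ha'
      exact absurd ha' (Set.notMem_empty _)
    | some y =>
      exact ⟨y, rfl, List.mem_filterMap.mpr ⟨R', hR', hs⟩⟩
  constructor
  · intro hnone
    by_contra hne
    obtain ⟨a, ha⟩ := Set.nonempty_iff_ne_empty.mpr hne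
    obtain ⟨R', hR', a', ha', _⟩ := hest (fun _ => 0) (fun _ => 0) 0
      (by intro x _ y _; simp [gq]) a ha
    obtain ⟨y, hy, hyL⟩ := hcand R' hR' a' ha'
    obtain ⟨x, hx, hmin⟩ := exists_best G _ (List.ne_nil_of_mem hyL)
    unfold appr bestc at hnone
    rw [List.find?_eq_none] at hnone
    apply hnone x hx
    rw [List.all_eq_true]
    intro z hz
    rw [Zn.le_iff]
    exact hmin z hz
  · intro x hx
    unfold appr bestc at hx
    have hxL := List.mem_of_find?_eq_some hx
    have hxP := List.find?_some hx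
    rw [List.all_eq_true] at hxP
    obtain ⟨R1, hR1, hs1⟩ := List.mem_filterMap.mp hxL
    obtain ⟨hok1, hsub1, hconst1⟩ := hleaf R1 hR1
    obtain ⟨hlen, hxs, _⟩ := (h2 N d R1 F hok1).2 x hs1
    refine ⟨hlen, hsub1 hxs, ?_⟩
    intro Rg hRg a ha
    obtain ⟨R', hR', a', ha', hle⟩ := hest _ _ Rg hRg a ha
    obtain ⟨y, hy, hyL⟩ := hcand R' hR' a' ha'
    obtain ⟨hok', hsub', hconst'⟩ := hleaf R' hR'
    obtain ⟨hylen, hys, hymin⟩ := (h2 N d R' F hok').2 y hy
    have e1 : gq (kG d G) (hG d G) (lz d x) ≤ gq (kG d G) (hG d G) (lz d y) := by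
      rw [← val_gv d G x hGl hlen, ← val_gv d G y hGl hylen]
      have := hxP y hyL
      rw [Zn.le_iff] at this
      exact_mod_cast this
    have e2 : gq (kG d G) (hG d G) (lz d y) - gq (kG d G) (hG d G) a' =
        (fv d F (lz d y) : ℝ) - fv d F a' := by
      unfold gq fv
      push_cast
      rw [← Finset.sum_sub_distrib, ← Finset.sum_sub_distrib]
      refine Finset.sum_congr rfl fun j _ => ?_
      obtain ⟨c1, c2, c3⟩ := hcoef j
      rw [c1]
      by_cases hj : j.val ∈ V
      · have := hconst' j hj (lz d y) hys a' ha'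
        rw [this]
        ring
      · rw [c3 hj]
    have e3 : (fv d F (lz d y) : ℝ) ≤ fv d F a' := by exact_mod_cast hymin a' ha'
    linarith

end Pool.Agent.Helper13.SQ
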