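import Mathlib
import Pool.Agent.Helper19.SQ.GoalsC

/-!
Packet SQ-REL (project of helper19, MP_bb32d1_al): the relation of the power sums.
-/

set_option autoImplicit false

open Pool.Agent.Helper19.SQ

namespace Pool.Agent.Helper13.SQ

theorem mul_ofFn {R : Type} [Ring R] (g : R) : ∀ (n : ℕ) (F F' : Fin n → R),
    (∀ k, g * F k = F k * g + F' k) → g * (List.ofFn F).prod =
      (List.ofFn F).prod * g + ∑ k, (List.ofFn (Function.update F k (F' k))).prod := by
  intro n
  induction n with
  | zero =>
    intro F F' _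
    simp
  | succ n ih =>
    intro F F' h
    have h0 : (List.ofFn (Function.update F 0 (F' 0))).prod =
        F' 0 * (List.ofFn fun i : Fin n => F i.succ).prod := by
      rw [List.ofFn_succ, List.prod_cons, Function.update_self]
      congr 3
    have hk : ∀ k : Fin n, (List.ofFn (Function.update F k.succ (F' k.succ))).prod =
        F 0 * (List.ofFn (Function.update (fun i : Fin n => F i.succ) k (F' k.succ))).prod := by
      intro k
      rw [List.ofFn_succ, List.prod_cons, Function.update_of_ne (Fin.succ_ne_zero k).symm]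
      congr 3
      funext i
      by_cases hik : i = k
      · subst hik
        simp
      · rw [Function.update_of_ne (fun h1 => hik (Fin.succ_injective _ h1)),
          Function.update_of_ne hik]
    have h1 := ih (fun i => F i.succ) (fun i => F' i.succ) (fun k => h k.succ)
    rw [Fin.sum_univ_succ, h0, Finset.sum_congr rfl fun k _ => hk k, ← Finset.mul_sum,
      List.ofFn_succ, List.prod_cons, ← mul_assoc, h 0, add_mul, mul_assoc, h1, mul_add]
    simp only [mul_assoc]
    abel

theorem ofFn_gr {l n : ℕ} [NeZero l] {T : Type} [AddCommGroup T] [Module ℂ T] (C : Cnt l n T) :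
    ∀ (p : ℕ) (F : Fin p → Module.End ℂ T) (w : Fin p → ZMod l → ℤ),
    (∀ k m, ∀ y ∈ C.gr m, F k y ∈ C.gr (m + w k)) → ∀ m, ∀ y ∈ C.gr m,
      (List.ofFn F).prod y ∈ C.gr (m + ∑ k, w k) := by
  intro p
  induction p with
  | zero =>
    intro F w _ m y hy
    simpa using hy
  | succ p ih =>
    intro F w h m y hy
    rw [List.ofFn_succ, List.prod_cons, Module.End.mul_apply, Fin.sum_univ_succ]
    have h1 := ih (fun i => F i.succ) (fun i => w i.succ) (fun k => h k.succ) m y hy
    have h2 := h 0 _ _ h1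
    have h3 : m + (w 0 + ∑ i : Fin p, w i.succ) = m + ∑ k : Fin p, w k.succ + w 0 := by abel
    rw [h3]
    exact h2

theorem gr_zero {l n : ℕ} [NeZero l] {T : Type} [AddCommGroup T] [Module ℂ T] (C : Cnt l n T)
    {m : ZMod l → ℤ} {c : ZMod l} (hc : m c < 0) {y : T} (hy : y ∈ C.gr m) : y = 0 := by
  have h : C.gr m = ⊥ := C.bot m fun h => absurd (h.1 c) (not_le.2 hc)
  rw [h] at hy
  exact (Submodule.mem_bot ℂ).1 hy

theorem exists_smul {l n : ℕ} [NeZero l] {T : Type} [AddCommGroup T] [Module ℂ T] (C : Cnt l n T)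
    (d : ZMod l) (hty : IsTy n (nd n d)) {y : T} (hy : y ∈ C.gr (nd n d)) :
    ∃ c : ℂ, y = c • C.ch (nd n d) := by
  have := C.fd
  obtain ⟨v, hv⟩ := finrank_le_one_iff.1 (C.one d)
  obtain ⟨a, ha⟩ := hv ⟨C.ch (nd n d), C.ch_mem _ hty⟩
  obtain ⟨b, hb⟩ := hv ⟨y, hy⟩
  have ha' : a • (v : T) = C.ch (nd n d) := congrArg Subtype.val ha
  have hb' : b • (v : T) = y := congrArg Subtype.val hb
  have ha0 : a ≠ 0 := by
    intro h
    rw [h, zero_smul] at ha'
    exact C.ch_ne d ha'.symm
  refine ⟨b * a⁻¹, ?_⟩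
  rw [← ha', smul_smul, mul_assoc, inv_mul_cancel₀ ha0, mul_one, hb']

theorem s_rel (hG : S_GBR) : S_REL := by
  intro l n _ T _ _ C hl d d' hdd x hx τ hτ a i j
  obtain ⟨hg, -⟩ := hG l n T C hl d d' hdd.symm i 0 (j : ℤ) 0 _ rfl
  set g : Module.End ℂ T := C.e d d' i j * C.e d' d 0 0 - C.e d' d 0 0 * C.e d d' i j with hgdef
  have hgap : ∀ y, g y = C.e d d' i j (C.e d' d 0 0 y) - C.e d' d 0 0 (C.e d d' i j y) := by
    intro y
    rw [hgdef, LinearMap.sub_apply, Module.End.mul_apply, Module.End.mul_apply]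
  have hcomm : ∀ k, g * C.e d (x k) (a k).1 ((a k).2 : ℤ) =
      C.e d (x k) (a k).1 ((a k).2 : ℤ) * g + C.e d (x k) ((a k).1 + i) ((a k).2 + (j : ℤ)) := by
    intro k
    have h := hg (x k) (a k).1 ((a k).2 : ℤ) (hx k).2 (hx k).1
    rw [add_zero, add_zero] at h
    have h2 : g * C.e d (x k) (a k).1 ((a k).2 : ℤ) =
        C.e d (x k) (a k).1 ((a k).2 : ℤ) * g -
          (C.e d (x k) (a k).1 ((a k).2 : ℤ) * g - g * C.e d (x k) (a k).1 ((a k).2 : ℤ)) := by
      abel
    rw [h2, h, sub_neg_eq_add]
  have hmul := mul_ofFn g n (fun k => C.e d (x k) (a k).1 ((a k).2 : ℤ))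
    (fun k => C.e d (x k) ((a k).1 + i) ((a k).2 + (j : ℤ))) hcomm
  have hupd : ∀ k, (List.ofFn (Function.update (fun k => C.e d (x k) (a k).1 ((a k).2 : ℤ)) k
      (C.e d (x k) ((a k).1 + i) ((a k).2 + (j : ℤ))))).prod =
      pOp C d x (Function.update a k (a k + (i, j))) := by
    intro k
    unfold pOp
    congr 2
    funext m
    by_cases hmk : m = k
    · subst hmk
      rw [Function.update_self, Function.update_self]
      simp
    · rw [Function.update_of_ne hmk, Function.update_of_ne hmk]
  have hsum : ∑ k, pOp C d x (Function.update a k (a k + (i, j))) =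
      g * pOp C d x a - pOp C d x a * g := by
    have h1 : g * pOp C d x a = pOp C d x a * g +
        ∑ k, pOp C d x (Function.update a k (a k + (i, j))) := by
      rw [← Finset.sum_congr rfl fun k _ => hupd k]
      exact hmul
    rw [h1]
    abel
  have htyd : tyc x d = 0 := by
    unfold tyc
    rw [Finset.sum_apply]
    exact Finset.sum_eq_zero fun k _ => if_neg (hx k).1.symm
  have htyd' : tyc x d' = 0 := by
    unfold tyc
    rw [Finset.sum_apply]
    exact Finset.sum_eq_zero fun k _ => if_neg (hx k).2.symm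
  have hsg : ∀ c : ZMod l, (sg c : ZMod l → ℤ) c = 1 := fun c => if_pos rfl
  have hsg' : ∀ c c' : ZMod l, c ≠ c' → (sg c : ZMod l → ℤ) c' = 0 := fun c c' h =>
    if_neg h.symm
  have hgτ : g τ = 0 := by
    have h1 : C.e d' d 0 0 τ = 0 := by
      refine gr_zero C (c := d) ?_ (C.e_gr d' d 0 0 hdd.symm _ τ hτ)
      rw [Pi.sub_apply, Pi.add_apply, htyd, hsg, hsg' _ _ hdd.symm]
      norm_num
    have h2 : C.e d d' i j τ = 0 := by
      refine gr_zero C (c := d') ?_ (C.e_gr d d' i j hdd _ τ hτ)
      rw [Pi.sub_apply, Pi.add_apply, htyd', hsg, hsg' _ _ hdd]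
      norm_num
    rw [hgap, h1, h2, map_zero, map_zero, sub_zero]
  have hnd : tyc x + ∑ k, (sg d - sg (x k)) = (nd n d : ZMod l → ℤ) := by
    rw [Finset.sum_sub_distrib]
    unfold tyc
    rw [add_sub_cancel]
    funext c
    rw [Finset.sum_apply, Finset.sum_const, Finset.card_univ, Fintype.card_fin]
    unfold sg nd
    by_cases hc : c = d
    · rw [if_pos hc, if_pos hc]
      simp
    · rw [if_neg hc, if_neg hc]
      simp
  have hty : IsTy n (nd n d : ZMod l → ℤ) := by
    constructor
    · intro c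
      unfold nd
      by_cases hc : c = d
      · rw [if_pos hc]
        positivity
      · rw [if_neg hc]
    · unfold nd
      simp
  have hy : pOp C d x a τ ∈ C.gr (nd n d) := by
    rw [← hnd]
    refine ofFn_gr C n _ (fun k => sg d - sg (x k)) ?_ _ τ hτ
    intro k m y hy
    have h := C.e_gr d (x k) (a k).1 ((a k).2 : ℤ) (hx k).1.symm m y hy
    rwa [add_sub_assoc] at h
  obtain ⟨c, hc⟩ := exists_smul C d hty hy
  have hgch : g (C.ch (nd n d)) = (if i = 0 then (n : ℂ) else 0) • C.ch (nd n d) := by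
    have h1 : C.e d d' i j (C.ch (nd n d)) = 0 := by
      refine gr_zero C (c := d') ?_ (C.e_gr d d' i j hdd _ _ (C.ch_mem _ hty))
      rw [Pi.sub_apply, Pi.add_apply, hsg, hsg' _ _ hdd]
      unfold nd
      rw [if_neg hdd.symm]
      norm_num
    rw [hgap, h1, map_zero, sub_zero]
    rcases Nat.eq_zero_or_pos n with hn | hn
    · have h2 : C.e d' d 0 0 (C.ch (nd n d)) = 0 := by
        refine gr_zero C (c := d) ?_ (C.e_gr d' d 0 0 hdd.symm _ _ (C.ch_mem _ hty))
        rw [Pi.sub_apply, Pi.add_apply, hsg, hsg' _ _ hdd.symm]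
        unfold nd
        rw [if_pos rfl, hn]
        norm_num
      have hn' : (n : ℂ) = 0 := by rw [hn, Nat.cast_zero]
      rw [h2, map_zero, hn', ite_self, zero_smul]
    · have hty' : IsTy n (nd n d + sg d' - sg d : ZMod l → ℤ) := by
        constructor
        · intro c
          rw [Pi.sub_apply, Pi.add_apply]
          unfold nd sg
          by_cases hcd : c = d
          · have hcd' : ¬ c = d' := fun h => hdd (hcd.symm.trans h)
            rw [if_pos hcd, if_neg hcd', if_pos hcd]
            have : (1 : ℤ) ≤ n := by exact_mod_cast hn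
            linarith
          · rw [if_neg hcd, if_neg hcd]
            split_ifs <;> norm_num
        · have h3 : ∑ c, (nd n d + sg d' - sg d : ZMod l → ℤ) c =
              ∑ c, nd n d c + ∑ c, sg d' c - ∑ c, sg d c := by
            rw [← Finset.sum_add_distrib, ← Finset.sum_sub_distrib]
            rfl
          rw [h3, hty.2]
          unfold sg
          simp
      have h2 := C.e_ch d' d 0 0 (nd n d) hdd.symm hty hty'
      have h4 : (nd n d + sg d' - sg d) + sg d - sg d' = (nd n d : ZMod l → ℤ) := by abel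
      have h3 := C.e_ch d d' i j (nd n d + sg d' - sg d) hdd hty' (by rw [h4]; exact hty)
      rw [h4] at h3
      have h5 : (nd n d : ZMod l → ℤ) d' = 0 := if_neg hdd.symm
      have h6 : (nd n d + sg d' - sg d : ZMod l → ℤ) d = n - 1 := by
        rw [Pi.sub_apply, Pi.add_apply, hsg, hsg' _ _ hdd.symm]
        unfold nd
        rw [if_pos rfl]
        ring
      rw [if_pos rfl, h5, Int.cast_zero, zero_add, one_smul] at h2
      rw [h2, h3, h6]
      congr 1
      by_cases hi : i = 0
      · rw [if_pos hi, if_pos hi]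
        push_cast
        ring
      · rw [if_neg hi, if_neg hi]
  have hgy : g (pOp C d x a τ) = (if i = 0 then (n : ℂ) else 0) • pOp C d x a τ := by
    rw [hc, map_smul, hgch, smul_comm]
  have hfin := congrArg (fun f : Module.End ℂ T => f τ) hsum
  simp only [LinearMap.sum_apply, LinearMap.sub_apply, Module.End.mul_apply] at hfin
  rw [hfin, hgτ, map_zero, sub_zero, hgy]

end Pool.Agent.Helper13.SQ
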